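import Pool.Agent.Q61.MPc9

set_option autoImplicit false

open MeasureTheory Q61.Rad

namespace Pool.Agent.Results.MP_c8f9b2_an.FiniteAndDiscontinuousVolume

/-- For every `m ≥ 3`: for all data `a ∈ ℝ^m` the radial solution `u_a` of `Δ^m u = -e^u` on `ℝ^{2m}` with
`Δ^i u(0) = a_i` exists and is unique, `V(a) = ∫ e^{u_a}` is finite (Q1: yes), and `V : ℝ^m → ℝ` is
discontinuous at some point (Q2: no). -/
theorem result (m : ℕ) (hm : 3 ≤ m) :
    (∀ a : Fin m → ℝ, ∃! u : EuclideanSpace ℝ (Fin (2 * m)) → ℝ, IsSol a u) ∧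
    (∀ (a : Fin m → ℝ) (u : EuclideanSpace ℝ (Fin (2 * m)) → ℝ), IsSol a u →
      Integrable fun x => Real.exp (u x)) ∧
    ∀ U : (Fin m → ℝ) → EuclideanSpace ℝ (Fin (2 * m)) → ℝ, (∀ a, IsSol a (U a)) →
      ∃ a, ¬ ContinuousAt (fun a => ∫ x, Real.exp (U a x)) a := by
  obtain ⟨h1, h2, h3⟩ := Q61.MPc8.all (2 * m) m hm rfl
  refine ⟨h1, h2, fun U hU => ?_⟩
  have h4 := h3 U hU
  rw [continuous_iff_continuousAt] at h4
  push Not at h4
  exact h4

end Pool.Agent.Results.MP_c8f9b2_an.FiniteAndDiscontinuousVolume
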